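import Mathlib

/-!
Block D1 of project LD part 2 (helper76): Flanders' lemma for bordered determinants.
-/

set_option autoImplicit false

namespace Pool.Agent.Lib_helper76.LD

open Finset Polynomial

theorem flanders_pr {F : Type} [Field F] [Fintype F] (k : ℕ) (hk : k + 1 < Fintype.card F)
    (M A : Matrix (Fin k) (Fin k) F) (B : Matrix (Fin k) (Fin 1) F) (C : Matrix (Fin 1) (Fin k) F)
    (D : F) (hM : M.det ≠ 0)
    (h : ∀ s : F, (Matrix.fromBlocks (M + s • A) (s • B) (s • C)
      (s • (Matrix.of fun _ _ => D) : Matrix (Fin 1) (Fin 1) F)).det = 0) : D = 0 := by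
  classical
  -- the polynomial matrix
  let N : Matrix (Fin k ⊕ Fin 1) (Fin k ⊕ Fin 1) F[X] :=
    Matrix.fromBlocks (M.map Polynomial.C + (X : F[X]) • A.map Polynomial.C)
      ((X : F[X]) • B.map Polynomial.C) (C.map Polynomial.C) (Matrix.of fun _ _ => Polynomial.C D)
  have hev : ∀ s : F, (N.det).eval s = (Matrix.fromBlocks (M + s • A) (s • B) C
      (Matrix.of fun _ _ => D : Matrix (Fin 1) (Fin 1) F)).det := by
    intro s
    rw [← Polynomial.coe_evalRingHom, RingHom.map_det]
    congr 1
    ext i j
    rcases i with i | i <;> rcases j with j | j <;> simp [N, Matrix.fromBlocks] <;> ring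
  have hdeg : (N.det).natDegree ≤ k := by
    rw [Matrix.det_apply]
    apply Polynomial.natDegree_sum_le_of_forall_le
    intro σ _
    refine (Polynomial.natDegree_smul_le _ _).trans ?_
    refine (Polynomial.natDegree_prod_le _ _).trans ?_
    calc ∑ i, (N (σ i) i).natDegree
        ≤ ∑ i, Sum.elim (fun _ : Fin k => 1) (fun _ : Fin 1 => 0) (σ i) := by
          apply Finset.sum_le_sum
          intro i _
          rcases hσ : σ i with a | a
          · rcases i with b | b
            · simp only [N, Matrix.fromBlocks_apply₁₁, Matrix.add_apply, Matrix.map_apply,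
                Matrix.smul_apply, smul_eq_mul, Sum.elim_inl]
              refine (Polynomial.natDegree_add_le _ _).trans ?_
              simp only [Polynomial.natDegree_C, zero_le, sup_of_le_right]
              refine (Polynomial.natDegree_mul_le).trans ?_
              simp
            · simp only [N, Matrix.fromBlocks_apply₁₂, Matrix.map_apply,
                Matrix.smul_apply, smul_eq_mul, Sum.elim_inl]
              refine (Polynomial.natDegree_mul_le).trans ?_
              simp
          · rcases i with b | b <;> simp [N]
      _ = ∑ i, Sum.elim (fun _ : Fin k => 1) (fun _ : Fin 1 => 0) i := Equiv.sum_comp σ _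
      _ = k := by simp
  have hz : N.det = 0 := by
    apply Polynomial.eq_zero_of_natDegree_lt_card_of_eval_eq_zero' N.det (Finset.univ.erase (0 : F))
    · intro s hs
      have hs0 : s ≠ 0 := (Finset.mem_erase.1 hs).1
      rw [hev s]
      have h1 := Matrix.det_mul_column (Sum.elim (fun _ : Fin k => (1 : F)) (fun _ : Fin 1 => s))
        (Matrix.fromBlocks (M + s • A) (s • B) C (Matrix.of fun _ _ => D : Matrix (Fin 1) (Fin 1) F))
      have h2 : (Matrix.of fun i j => Sum.elim (fun _ : Fin k => (1 : F)) (fun _ : Fin 1 => s) i *
          (Matrix.fromBlocks (M + s • A) (s • B) C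
            (Matrix.of fun _ _ => D : Matrix (Fin 1) (Fin 1) F)) i j) =
          Matrix.fromBlocks (M + s • A) (s • B) (s • C)
            (s • (Matrix.of fun _ _ => D) : Matrix (Fin 1) (Fin 1) F) := by
        ext i j
        rcases i with i | i <;> rcases j with j | j <;> simp
      rw [h2, h s] at h1
      have h3 : (∏ i, Sum.elim (fun _ : Fin k => (1 : F)) (fun _ : Fin 1 => s) i) = s := by simp
      rw [h3] at h1
      exact (mul_eq_zero.1 h1.symm).resolve_left hs0
    · rw [Finset.card_erase_of_mem (Finset.mem_univ _), Finset.card_univ]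
      omega
  have h0 := hev 0
  rw [hz] at h0
  simp only [Polynomial.eval_zero, zero_smul, add_zero] at h0
  rw [Matrix.det_fromBlocks_zero₁₂] at h0
  rcases mul_eq_zero.1 h0.symm with h1 | h1
  · exact absurd h1 hM
  · simpa using h1

end Pool.Agent.Lib_helper76.LD
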